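import Mathlib

set_option autoImplicit false

namespace Pool.Agent.Results.MP_781439_al.Ray

/-- right-angled Artin group of a simple graph -/
abbrev RAAG {V : Type} (Γ : SimpleGraph V) : Type :=
  PresentedGroup {w : FreeGroup V | ∃ u v, Γ.Adj u v ∧
    w = FreeGroup.of u * FreeGroup.of v * (FreeGroup.of u)⁻¹ * (FreeGroup.of v)⁻¹}

/-- an order preserving action on the rationals, sharply transitive on k-subsets -/
def Sharp (k : ℕ) (G : Type) [Group G] [MulAction G ℚ] : Prop :=
  (∀ g : G, StrictMono fun x : ℚ => g • x) ∧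
  ∀ A B : Finset ℚ, A.card = k → B.card = k → ∃! g : G, A.image (fun x => g • x) = B

def Γ0 : SimpleGraph ℕ where
  Adj i j := i + 2 ≤ j ∨ j + 2 ≤ i
  symm := ⟨fun _ _ h => h.symm⟩
  loopless := ⟨fun _ h => by omega⟩

abbrev A : Type := RAAG Γ0
abbrev v (i : ℕ) : A := PresentedGroup.of i

def lf {G : Type} [Group G] (f : ℕ → G) (h : ∀ i j, i + 2 ≤ j → Commute (f i) (f j)) : A →* G :=
  PresentedGroup.toGroup (f := f) (by
    rintro _ ⟨i, j, hij, rfl⟩
    have : Commute (f i) (f j) := hij.elim (h i j) fun h' => (h j i h').symm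
    simp [this.eq])

@[simp] lemma lf_v {G : Type} [Group G] (f : ℕ → G) (h) (i : ℕ) : lf f h (v i) = f i :=
  PresentedGroup.toGroup.of _

lemma v_comm (i j : ℕ) (h : i + 2 ≤ j) : Commute (v i) (v j) := by
  have := PresentedGroup.one_of_mem (rels := {w : FreeGroup ℕ | ∃ u v, Γ0.Adj u v ∧
    w = FreeGroup.of u * FreeGroup.of v * (FreeGroup.of u)⁻¹ * (FreeGroup.of v)⁻¹})
    ⟨i, j, Or.inl h, rfl⟩
  simp only [map_mul, map_inv] at this
  exact commutatorElement_eq_one_iff_commute.1 this

lemma ev (P : A → ℕ → Prop) (h0 : ∀ i, ∃ n, ∀ m ≥ n, P (v i) m) (h1 : ∀ m, P 1 m)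
    (h2 : ∀ a b m, P a m → P b m → P (a * b) m) (h3 : ∀ a m, P a m → P a⁻¹ m) (g : A) :
    ∃ n, ∀ m ≥ n, P g m := by
  let H : Subgroup A :=
    { carrier := {g | ∃ n, ∀ m ≥ n, P g m}
      one_mem' := ⟨0, fun m _ => h1 m⟩
      mul_mem' := fun ⟨n, hn⟩ ⟨n', hn'⟩ => ⟨max n n', fun m hm =>
        h2 _ _ m (hn m (le_of_max_le_left hm)) (hn' m (le_of_max_le_right hm))⟩
      inv_mem' := fun ⟨n, hn⟩ => ⟨n, fun m hm => h3 _ m (hn m hm)⟩ }
  exact PresentedGroup.generated_by _ H h0 g

def rt (m : ℕ) : A →* A := lf (fun j => if j < m then v j else 1) fun i j h => by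
  split_ifs
  exacts [v_comm i j h, Commute.one_right _, Commute.one_left _, Commute.one_left _]

lemma rt_ev (g : A) : ∃ n, ∀ m ≥ n, rt m g = g :=
  ev (fun g m => rt m g = g) (fun i => ⟨i + 1, fun m hm => by simp [rt]; omega⟩) (by simp)
    (fun a b m ha hb => by simp [ha, hb]) (fun a m ha => by simp [ha]) g

lemma comm_ev (g : A) : ∃ n, ∀ m ≥ n, Commute g (v m) :=
  ev (fun g m => Commute g (v m)) (fun i => ⟨i + 2, fun m hm => v_comm i m hm⟩) (by simp)
    (fun _ _ _ ha hb => ha.mul_left hb) (fun _ _ ha => ha.inv_left) g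

noncomputable def ab : A →* Multiplicative (ℕ →₀ ℤ) :=
  lf (fun j => Multiplicative.ofAdd (Finsupp.single j 1)) fun _ _ _ => Commute.all _ _

noncomputable def E (i : ℕ) (g : A) : ℤ := (ab g).toAdd i

lemma E_mul (i : ℕ) (a b : A) : E i (a * b) = E i a + E i b := by simp [E]
lemma E_v (i j : ℕ) : E i (v j) = if j = i then 1 else 0 := by simp [E, ab, Finsupp.single_apply]

lemma ab_ker (ψ : A →* Multiplicative ℤ) (g : A) (h : ∀ i, E i g = 0) : ψ g = 1 := by
  have : ψ = (AddMonoidHom.toMultiplicative (Finsupp.linearCombination ℤ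
      fun i => (ψ (v i)).toAdd).toAddMonoidHom).comp ab := by
    ext i
    simp [ab]
  have h1 : ab g = 1 := by
    apply Multiplicative.toAdd.injective
    ext i
    exact h i
  rw [this, MonoidHom.comp_apply, h1, map_one]

@[ext] structure Hs where
  x : ℤ
  y : ℤ
  z : ℤ

instance : Mul Hs := ⟨fun a b => ⟨a.x + b.x, a.y + b.y, a.z + b.z + a.x * b.y⟩⟩
instance : One Hs := ⟨⟨0, 0, 0⟩⟩
instance : Inv Hs := ⟨fun a => ⟨-a.x, -a.y, a.x * a.y - a.z⟩⟩
lemma Hs.mul_def (a b : Hs) : a * b = ⟨a.x + b.x, a.y + b.y, a.z + b.z + a.x * b.y⟩ := rfl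
lemma Hs.one_def : (1 : Hs) = ⟨0, 0, 0⟩ := rfl
lemma Hs.inv_def (a : Hs) : a⁻¹ = ⟨-a.x, -a.y, a.x * a.y - a.z⟩ := rfl
instance : Group Hs := Group.ofLeftAxioms
  (fun a b c => by ext <;> simp [Hs.mul_def] <;> ring)
  (fun a => by ext <;> simp [Hs.mul_def, Hs.one_def])
  (fun a => by ext <;> simp [Hs.mul_def, Hs.one_def, Hs.inv_def])

lemma det (i : ℕ) {a b : A} (h : Commute a b) : E i a * E (i + 1) b = E (i + 1) a * E i b := by
  let φ : A →* Hs := lf (fun j => if j = i then ⟨1, 0, 0⟩ else if j = i + 1 then ⟨0, 1, 0⟩ else 1)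
    fun j l h => by
      split_ifs <;> first | omega | exact Commute.one_right _ | exact Commute.one_left _
  have hx : ∀ g, (φ g).x = E i g ∧ (φ g).y = E (i + 1) g := by
    intro g
    obtain ⟨_, h⟩ := ev (fun g _ => (φ g).x = E i g ∧ (φ g).y = E (i + 1) g)
      (fun j => ⟨0, fun _ _ => by
        simp only [φ, lf_v, E_v]
        split_ifs <;> first | omega | simp [Hs.one_def]⟩)
      (fun _ => by simp [Hs.one_def, E])
      (fun a b _ ha hb => by simp [Hs.mul_def, E_mul, ha, hb])
      (fun a _ ha => by simp [Hs.inv_def, ha, E]) g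
    exact h _ le_rfl
  have := congrArg Hs.z (h.map φ).eq
  simp only [Hs.mul_def, hx] at this
  linarith

abbrev XX (m : ℕ) : Type := A ⧸ Subgroup.centralizer {v m}

def act (m : ℕ) : A →* MulAut (FreeGroup (XX m)) :=
  MonoidHom.mk' (fun g => FreeGroup.freeGroupCongr (MulAction.toPerm g)) fun a b => by
    apply MulEquiv.toMonoidHom_injective
    ext x
    simp [mul_smul]

lemma act_of (m : ℕ) (g : A) (x : XX m) : act m g (FreeGroup.of x) = FreeGroup.of (g • x) := by
  simp [act]

open SemidirectProduct in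
lemma kill (p : A →* A) (hp : ∀ g, p (p g) = p g) (h : ∀ i g, E i (p g) = 0) (g : A) :
    p g = 1 := by
  have key : ∀ m g, rt m (p g) = 1 := by
    intro m
    induction m with
    | zero =>
      intro g
      have : rt 0 = 1 := by ext i; simp [rt]
      simp [this]
    | succ m ih =>
      have hc : ∀ j, j + 2 ≤ m → Commute (inr (v j) : FreeGroup (XX m) ⋊[act m] A)
          (inl (FreeGroup.of ((1 : A) : XX m))) := by
        intro j hj
        have e : v j • ((1 : A) : XX m) = ((1 : A) : XX m) := by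
          rw [MulAction.Quotient.smul_coe, eq_comm, QuotientGroup.eq]
          simpa [Subgroup.mem_centralizer_singleton_iff] using (v_comm j m hj).eq
        have := inl_aut (φ := act m) (v j) (FreeGroup.of ((1 : A) : XX m))
        rw [act_of, e, map_inv, eq_mul_inv_iff_mul_eq] at this
        exact this.symm
      let Φ : A →* FreeGroup (XX m) ⋊[act m] A :=
        lf (fun j => if j < m then inr (v j) else
          if j = m then inl (FreeGroup.of ((1 : A) : XX m)) else 1) fun i j h => by
          split_ifs with h1 h2 h3 <;> first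
            | omega | exact Commute.one_right _ | exact Commute.one_left _
            | exact (v_comm i j h).map _ | exact hc i (h3 ▸ h)
      let c : XX m → A := fun x => Quotient.liftOn' x (fun a => a * v m * a⁻¹) fun a b hab => by
        have := Subgroup.mem_centralizer_singleton_iff.1 (QuotientGroup.leftRel_apply.1 hab)
        calc a * v m * a⁻¹ = a * (v m * (a⁻¹ * b)) * b⁻¹ := by group
          _ = _ := by rw [← this]; group
      let Ψ : FreeGroup (XX m) ⋊[act m] A →* A :=
        SemidirectProduct.lift (FreeGroup.lift c) (MonoidHom.id A) fun g => by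
          ext x
          obtain ⟨a, rfl⟩ := QuotientGroup.mk_surjective x
          simp [act_of, c, mul_assoc]
      have h1 : rightHom.comp Φ = rt m := by
        ext j
        simp only [Φ, rt, MonoidHom.comp_apply, lf_v]
        split_ifs <;> simp
      have h2 : Ψ.comp Φ = rt (m + 1) := by
        ext j
        simp only [Φ, rt, MonoidHom.comp_apply, lf_v]
        split_ifs <;> first | omega | simp [Ψ, c, *]
      have h3 : ∀ g, (Φ (p g)).right = 1 := fun g => (DFunLike.congr_fun h1 (p g)).trans (ih g)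
      let θ : A →* FreeGroup (XX m) := MonoidHom.mk' (fun g => (Φ (p g)).left) fun a b => by
        simp [h3]
      have h4 : MonoidHom.id θ.range = 1 := by
        refine IsFreeGroup.ext_hom fun s => ?_
        exfalso
        let χ : θ.range →* Multiplicative ℤ := IsFreeGroup.lift fun _ => Multiplicative.ofAdd 1
        obtain ⟨g, hg⟩ := θ.rangeRestrict_surjective (IsFreeGroup.of s)
        have e1 := ab_ker (χ.comp θ.rangeRestrict) (p g) fun i => h i g
        have e2 : θ.rangeRestrict (p g) = θ.rangeRestrict g := Subtype.ext (by simp [θ, hp])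
        rw [MonoidHom.comp_apply, e2, hg] at e1
        simp [χ] at e1
      intro g
      have h5 : (Φ (p g)).left = 1 :=
        congrArg Subtype.val (DFunLike.congr_fun h4 (θ.rangeRestrict g))
      have h6 : Φ (p g) = 1 := SemidirectProduct.ext h5 (h3 g)
      rw [← h2, MonoidHom.comp_apply, h6, map_one]
  obtain ⟨n, hn⟩ := rt_ev (p g)
  rw [← hn n le_rfl, key]

lemma indec (p q : A →* A) (h1 : ∀ g, p g * q g = g) (h2 : ∀ a b, Commute (p a) (q b)) :
    (∀ i g, E i (p g) = 0) ∨ ∀ i g, E i (q g) = 0 := by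
  have hs : ∀ i g, E i (p g) + E i (q g) = E i g := fun i g => by rw [← E_mul, h1]
  have step : ∀ i, ((∀ g, E i (p g) = 0) ∧ ∀ g, E (i + 1) (p g) = 0) ∨
      ((∀ g, E i (q g) = 0) ∧ ∀ g, E (i + 1) (q g) = 0) := by
    intro i
    by_contra hcon
    simp only [← forall_and, not_or, not_forall] at hcon
    obtain ⟨⟨a, ha⟩, b, hb⟩ := hcon
    have par : ∀ g, E i g * E (i + 1) (p a) = E (i + 1) g * E i (p a) := by
      intro g
      have e1 := det i (h2 a b)
      have e2 := det i (h2 g b)
      have e3 := det i (h2 a g)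
      have e4 : E i (p g) * E (i + 1) (p a) = E (i + 1) (p g) * E i (p a) := by
        by_cases hb1 : E i (q b) = 0
        · have hb2 : E (i + 1) (q b) ≠ 0 := fun h => hb ⟨hb1, h⟩
          apply mul_right_cancel₀ hb2
          linear_combination E (i + 1) (p a) * e2 - E (i + 1) (p g) * e1
        · apply mul_right_cancel₀ hb1
          linear_combination E i (p a) * e2 - E i (p g) * e1
      rw [← hs i g, ← hs (i + 1) g]
      linear_combination e4 - e3
    have e1 := par (v i)
    have e2 := par (v (i + 1))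
    simp [E_v] at e1 e2
    exact ha ⟨e2.symm, e1⟩
  have excl : ∀ i, (∀ g, E i (p g) = 0) → (∀ g, E i (q g) = 0) → False := by
    intro i ha hb
    have := hs i (v i)
    simp [ha, hb, E_v] at this
  rcases step 0 with h | h
  · refine Or.inl fun i => ?_
    induction i with
    | zero => exact h.1
    | succ i ih => exact (step i).elim (·.2) fun h' => (excl i ih h'.1).elim
  · refine Or.inr fun i => ?_
    induction i with
    | zero => exact h.1
    | succ i ih => exact (step i).elim (fun h' => (excl i h'.1 ih).elim) (·.2)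

lemma nosharp (k : ℕ) (hk : 2 ≤ k) [MulAction A ℚ] (h : Sharp k A) : False := by
  obtain ⟨hm, hs⟩ := h
  have fix : ∀ (g : A) (t : ℕ → ℚ), Function.Injective t → (∀ i < k, g • t i = t i) → g = 1 := by
    intro g t ht hg
    have hc : ((Finset.range k).image t).card = k := by
      rw [Finset.card_image_of_injective _ ht, Finset.card_range]
    refine (hs _ _ hc hc).unique ?_ (by simp)
    rw [Finset.image_image]
    exact Finset.image_congr fun i hi => hg i (by simpa using hi)
  have st : ∀ x : ℚ, ∃ g : A, g ≠ 1 ∧ g • x = x := by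
    intro x
    obtain ⟨g, hg, -⟩ := hs ((Finset.range k).image fun i : ℕ => x + i)
      ((Finset.range k).image fun i : ℕ => x + 2 * i)
      (by rw [Finset.card_image_of_injective _ fun i j h => by simpa using h, Finset.card_range])
      (by rw [Finset.card_image_of_injective _ fun i j h => by simpa using h, Finset.card_range])
    refine ⟨g, ?_, le_antisymm ?_ ?_⟩
    · rintro rfl
      have : x + (1 : ℕ) ∈ (Finset.range k).image fun i : ℕ => x + 2 * i := by
        rw [← hg]
        simp only [one_smul, Finset.image_id']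
        exact Finset.mem_image_of_mem _ (by simp; omega)
      obtain ⟨i, -, hi⟩ := Finset.mem_image.1 this
      have : 2 * i = 1 := by exact_mod_cast add_left_cancel hi
      omega
    · have : x ∈ (Finset.range k).image fun i : ℕ => x + 2 * i :=
        Finset.mem_image.2 ⟨0, by simp; omega, by simp⟩
      rw [← hg] at this
      obtain ⟨y, hy, e⟩ := Finset.mem_image.1 this
      obtain ⟨i, -, rfl⟩ := Finset.mem_image.1 hy
      exact le_of_le_of_eq ((hm g).monotone (by simp)) e
    · have : g • x ∈ (Finset.range k).image fun i : ℕ => x + 2 * i := by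
        rw [← hg]
        exact Finset.mem_image_of_mem _ (Finset.mem_image.2 ⟨0, by simp; omega, by simp⟩)
      obtain ⟨i, -, e⟩ := Finset.mem_image.1 this
      rw [← e]; simp
  choose g hg1 hg2 using st
  choose n hn using fun x => comm_ev (g x)
  let m := (Finset.range k).sup fun i : ℕ => n i
  have : v m = 1 := by
    refine fix _ (fun i => i) Nat.cast_injective fun i hi => ?_
    have hc := hn i m (Finset.le_sup (f := fun i : ℕ => n i) (Finset.mem_range.2 hi))
    by_contra hne
    refine hg1 i (fix _ (fun j => v m ^ j • (i : ℚ)) ?_ fun j _ => ?_)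
    · rcases lt_or_gt_of_ne hne with h | h
      · refine (strictAnti_nat_of_succ_lt fun j => ?_).injective
        rw [pow_succ, mul_smul]
        exact hm _ h
      · refine (strictMono_nat_of_lt_succ fun j => ?_).injective
        rw [pow_succ, mul_smul]
        exact hm _ h
    · rw [← mul_smul, (hc.pow_right j).eq, mul_smul, hg2]
  have e := E_v m m
  simp [this, E] at e

theorem result : ∃ (V : Type) (_ : Countable V) (Γ : SimpleGraph V), ¬ IsCyclic (RAAG Γ) ∧
    (∀ (H₁ H₂ : Type) [Group H₁] [Group H₂], Infinite H₁ → Infinite H₂ →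
      IsEmpty (RAAG Γ ≃* H₁ × H₂)) ∧
    ∀ k : ℕ, 2 ≤ k → ∀ [MulAction (RAAG Γ) ℚ], ¬ Sharp k (RAAG Γ) := by
  refine ⟨ℕ, inferInstance, Γ0, fun h => ?_, fun H₁ H₂ _ _ i1 i2 => ⟨fun e => ?_⟩,
    fun k hk _ h => nosharp k hk h⟩
  · have := det 0 (a := v 0) (b := v 1) (by
      let := IsCyclic.commGroup (α := A)
      exact mul_comm _ _)
    simp [E_v] at this
  · let p : A →* A := e.symm.toMonoidHom.comp
      ((MonoidHom.inl H₁ H₂).comp ((MonoidHom.fst H₁ H₂).comp e.toMonoidHom))
    let q : A →* A := e.symm.toMonoidHom.comp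
      ((MonoidHom.inr H₁ H₂).comp ((MonoidHom.snd H₁ H₂).comp e.toMonoidHom))
    rcases indec p q (fun g => by simp [p, q, ← map_mul]) (fun a b =>
      (MonoidHom.commute_inl_inr _ _).map e.symm.toMonoidHom) with h | h
    · obtain ⟨x, hx⟩ := exists_ne (1 : H₁)
      exact hx (by simpa [p] using kill p (fun g => by simp [p]) h (e.symm (x, 1)))
    · obtain ⟨x, hx⟩ := exists_ne (1 : H₂)
      exact hx (by simpa [q] using kill q (fun g => by simp [q]) h (e.symm (1, x)))

end Pool.Agent.Results.MP_781439_al.Ray
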